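import Pool.Agent.Q131.Upward.Ladder

/-!
# Poly-line upward planar grid drawings of bipartite DAGs need quadratic area

For `n ≥ 60` the digraph `ladder n` (levels of two vertices, the odd levels being sources, with
consecutive levels completely joined) is a bipartite DAG with a straight-line upward planar grid
drawing, and all its poly-line upward planar grid drawings have area at least `n ^ 2 / 32`.  Hence
`A_p(n) ≥ n ^ 2 / 32`, which matches the known upper bound `A_p(n) = O(n ^ 2)`.
-/

namespace Pool.Agent.Results.MP_9caa86_co.PolylineArea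

open Q131.Upward

/-- **Quadratic area.**  For every `n ≥ 60` there is a bipartite DAG `G` with `n` vertices that has
a (straight-line) upward planar grid drawing, such that every axis-parallel rectangle
`[a, b] × [c, d]` that contains some poly-line upward planar grid drawing of `G` has area at least
`n ^ 2 / 32`. -/
theorem result : ∀ n : ℕ, 60 ≤ n → ∃ G : Digraph (Fin n), IsBipartiteDAG G ∧
    (∃ D : Drawing G, D.StraightLine) ∧
    ∀ D : Drawing G, ∀ a b c d : ℝ, D.InRectangle a b c d →
      (n : ℝ) ^ 2 / 32 ≤ (b - a) * (d - c) := by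
  intro n hn
  refine ⟨ladder n, ladder_bipartite n, ladder_drawing n (by omega), ?_⟩
  intro D a b c d hD
  obtain ⟨h1, h2⟩ := ladder_big (m := (n - 8) / 8) (by omega) D hD
  have h3 : n ≤ 8 * ((n - 8) / 8) + 15 := by omega
  have h3' : (n : ℝ) ≤ 8 * (((n - 8) / 8 : ℕ) : ℝ) + 15 := by exact_mod_cast h3
  have hn' : (60 : ℝ) ≤ n := by exact_mod_cast hn
  generalize (((n - 8) / 8 : ℕ) : ℝ) = m at *
  have k1 : ((n : ℝ) - 15) / 4 ≤ b - a := by linarith
  have k2 : ((n : ℝ) - 15) / 4 ≤ d - c := by linarith
  have k0 : 0 ≤ ((n : ℝ) - 15) / 4 := by linarith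
  have k3 : ((n : ℝ) - 15) / 4 * (((n : ℝ) - 15) / 4) ≤ (b - a) * (d - c) :=
    mul_le_mul k1 k2 k0 (k0.trans k1)
  nlinarith

end Pool.Agent.Results.MP_9caa86_co.PolylineArea
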